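import Mathlib
import Pool.Agent.H805R2.FekE

/-!
# Vandermonde determinants in several variables
-/

set_option autoImplicit false

open Finset

namespace Pool.Agent.Y698.TF

open Pool.Agent.H805R2 Pool.Agent.H805R2.Fek

/-- the exponents of the monomials of degree `≤ d` in `n` variables -/
abbrev Mon (n d : ℕ) : Type := {α : Fin n → Fin (d + 1) // ∑ i, (α i : ℕ) ≤ d}

/-- the Vandermonde determinant -/
noncomputable def V (n d : ℕ) (x : Mon n d → Cn n) : ℂ :=
  (Matrix.of fun β α : Mon n d => ∏ i, x β i ^ (α.1 i : ℕ)).det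

/-- the sum of the degrees of the monomials -/
def L (n d : ℕ) : ℕ := ∑ α : Mon n d, ∑ i, (α.1 i : ℕ)

lemma ex_sum_le (n d : ℕ) (a : Idx n d) : ∑ i, ex n d a i ≤ d := by
  induction n generalizing d with
  | zero => simp
  | succ n ih =>
    obtain ⟨k, a⟩ := a
    rw [Fin.sum_univ_succ]
    show (k : ℕ) + ∑ i, ex n (d - k) a i ≤ d
    have := ih (d - k) a
    have := k.2
    omega

lemma ex_surj (n d : ℕ) (α : Fin n → ℕ) (h : ∑ i, α i ≤ d) : ∃ a : Idx n d, ex n d a = α := by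
  induction n generalizing d with
  | zero => exact ⟨(() : Unit), by funext i; exact i.elim0⟩
  | succ n ih =>
    rw [Fin.sum_univ_succ] at h
    obtain ⟨a, ha⟩ := ih (d - α 0) (fun i => α i.succ) (by omega)
    refine ⟨⟨⟨α 0, by omega⟩, a⟩, ?_⟩
    change (Fin.cons (α 0) (ex n (d - α 0) a) : Fin (n + 1) → ℕ) = α
    rw [ha]
    exact Fin.cons_self_tail α

/-- the bijection between the two index types -/
def toMon (n d : ℕ) (a : Idx n d) : Mon n d :=
  ⟨fun i => ⟨ex n d a i, by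
    have h1 := ex_sum_le n d a
    have h2 : ex n d a i ≤ ∑ i, ex n d a i := Finset.single_le_sum (fun _ _ => Nat.zero_le _)
      (Finset.mem_univ i)
    omega⟩, ex_sum_le n d a⟩

lemma toMon_bij (n d : ℕ) : Function.Bijective (toMon n d) := by
  constructor
  · intro a b hab
    apply ex_inj
    funext i
    have := congrFun (congrArg Subtype.val hab) i
    exact congrArg Fin.val this
  · intro α
    obtain ⟨a, ha⟩ := ex_surj n d (fun i => (α.1 i : ℕ)) α.2
    refine ⟨a, Subtype.ext (funext fun i => Fin.ext ?_)⟩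
    exact congrFun ha i

noncomputable def eMon (n d : ℕ) : Idx n d ≃ Mon n d := Equiv.ofBijective _ (toMon_bij n d)

lemma eMon_val (n d : ℕ) (a : Idx n d) (i : Fin n) : (((eMon n d a).1 i : Fin (d + 1)) : ℕ) = ex n d a i :=
  rfl

lemma L_idx (n d : ℕ) : L n d = ∑ a : Idx n d, ∑ i, ex n d a i := by
  unfold L
  rw [← Equiv.sum_comp (eMon n d)]
  rfl

lemma L_eq (n d : ℕ) : L n d = n * SS n d := by
  rw [L_idx]
  induction n generalizing d with
  | zero => simp
  | succ n ih =>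
    have h : ∑ a : Idx (n + 1) d, ∑ i, ex (n + 1) d a i =
        ∑ k : Fin (d + 1), ∑ a : Idx n (d - k), ∑ i, ex (n + 1) d ⟨k, a⟩ i := Fintype.sum_sigma _
    have h2 : ∀ k : Fin (d + 1), ∑ a : Idx n (d - k), ∑ i, ex (n + 1) d ⟨k, a⟩ i =
        (k : ℕ) * NN n (d - k) + n * SS n (d - k) := by
      intro k
      have h3 : ∀ a : Idx n (d - k), ∑ i, ex (n + 1) d ⟨k, a⟩ i = (k : ℕ) + ∑ i, ex n (d - k) a i := by
        intro a
        rw [Fin.sum_univ_succ]
        rfl
      rw [Finset.sum_congr rfl fun a _ => h3 a, Finset.sum_add_distrib, ih, Finset.sum_const,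
        Finset.card_univ, card_Idx, smul_eq_mul, mul_comm]
    rw [h, Finset.sum_congr rfl fun k _ => h2 k, Finset.sum_add_distrib, ← Finset.mul_sum,
      Fin.sum_univ_eq_sum_range (fun k => k * NN n (d - k)),
      Fin.sum_univ_eq_sum_range (fun k => SS n (d - k)), sum_p, sum_r]
    ring

/-- the matrix of the translation -/
noncomputable def Bm (n d : ℕ) (a : Fin n → ℂ) : Matrix (Mon n d) (Mon n d) ℂ :=
  Matrix.of fun γ α => ∏ i, (-a i) ^ ((α.1 i : ℕ) - (γ.1 i : ℕ)) * ((α.1 i : ℕ).choose (γ.1 i : ℕ) : ℂ)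

lemma Bm_zero (n d : ℕ) (a : Fin n → ℂ) (γ α : Mon n d) (h : ∃ i, (α.1 i : ℕ) < (γ.1 i : ℕ)) :
    Bm n d a γ α = 0 := by
  obtain ⟨i, hi⟩ := h
  unfold Bm
  rw [Matrix.of_apply]
  refine Finset.prod_eq_zero (Finset.mem_univ i) ?_
  rw [Nat.choose_eq_zero_of_lt hi]
  simp

lemma Bm_one (n d : ℕ) (a : Fin n → ℂ) (α : Mon n d) : Bm n d a α α = 1 := by
  unfold Bm
  rw [Matrix.of_apply]
  refine Finset.prod_eq_one fun i _ => ?_
  simp

lemma det_Bm (n d : ℕ) (a : Fin n → ℂ) : (Bm n d a).det = 1 := by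
  have hb : (Bm n d a).BlockTriangular (fun α : Mon n d => ∑ i, (α.1 i : ℕ)) := by
    intro γ α h
    apply Bm_zero
    by_contra hcon
    push Not at hcon
    have := Finset.sum_le_sum fun i (_ : i ∈ Finset.univ) => hcon i
    exact absurd h (not_lt.2 this)
  rw [hb.det]
  refine Finset.prod_eq_one fun m _ => ?_
  have h1 : (Bm n d a).toSquareBlock (fun α : Mon n d => ∑ i, (α.1 i : ℕ)) m = 1 := by
    ext ⟨γ, hγ⟩ ⟨α, hα⟩
    rw [Matrix.toSquareBlock_def, Matrix.of_apply]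
    by_cases h : γ = α
    · subst h
      rw [Matrix.one_apply_eq]
      exact Bm_one n d a γ
    · rw [Matrix.one_apply_ne (by simpa using h)]
      apply Bm_zero
      by_contra hcon
      push Not at hcon
      apply h
      apply Subtype.ext
      funext i
      apply Fin.ext
      have h2 : ∑ i, (γ.1 i : ℕ) = ∑ i, (α.1 i : ℕ) := by
        have e1 : ∑ i, (γ.1 i : ℕ) = m := hγ
        have e2 : ∑ i, (α.1 i : ℕ) = m := hα
        rw [e1, e2]
      exact (Finset.sum_eq_sum_iff_of_le fun i _ => hcon i).1 h2 i (Finset.mem_univ i)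
  rw [h1, Matrix.det_one]

lemma mon_trans (n d : ℕ) (a y : Fin n → ℂ) (α : Mon n d) :
    ∏ i, (y i - a i) ^ (α.1 i : ℕ) = ∑ γ : Mon n d, (∏ i, y i ^ (γ.1 i : ℕ)) * Bm n d a γ α := by
  have h1 : ∀ i, (y i - a i) ^ (α.1 i : ℕ) = ∑ k : Fin (d + 1),
      y i ^ (k : ℕ) * ((-a i) ^ ((α.1 i : ℕ) - (k : ℕ)) * ((α.1 i : ℕ).choose (k : ℕ) : ℂ)) := by
    intro i
    rw [sub_eq_add_neg, add_pow, Fin.sum_univ_eq_sum_range (fun k => y i ^ k *
      ((-a i) ^ ((α.1 i : ℕ) - k) * ((α.1 i : ℕ).choose k : ℂ)))]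
    have hsub : Finset.range ((α.1 i : ℕ) + 1) ⊆ Finset.range (d + 1) := by
      intro k hk
      rw [Finset.mem_range] at hk ⊢
      have := (α.1 i).2
      omega
    rw [← Finset.sum_subset hsub]
    · exact Finset.sum_congr rfl fun k _ => by ring
    · intro k _ hk
      rw [Finset.mem_range, not_lt] at hk
      rw [Nat.choose_eq_zero_of_lt (by omega)]
      simp
  rw [Finset.prod_congr rfl fun i _ => h1 i, Finset.prod_univ_sum, Fintype.piFinset_univ]
  have h2 : ∀ γ : Fin n → Fin (d + 1), ¬ (∑ i, (γ i : ℕ) ≤ d) →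
      ∏ i, (y i ^ (γ i : ℕ) * ((-a i) ^ ((α.1 i : ℕ) - (γ i : ℕ)) * ((α.1 i : ℕ).choose (γ i : ℕ) : ℂ))) =
        0 := by
    intro γ hγ
    have h3 : ∃ i, (α.1 i : ℕ) < (γ i : ℕ) := by
      by_contra hcon
      push Not at hcon
      have := Finset.sum_le_sum fun i (_ : i ∈ Finset.univ) => hcon i
      exact hγ (this.trans α.2)
    obtain ⟨i, hi⟩ := h3
    refine Finset.prod_eq_zero (Finset.mem_univ i) ?_
    rw [Nat.choose_eq_zero_of_lt hi]
    simp
  rw [← Finset.sum_filter_add_sum_filter_not Finset.univ (fun γ : Fin n → Fin (d + 1) =>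
    ∑ i, (γ i : ℕ) ≤ d), Finset.sum_eq_zero (s := Finset.univ.filter fun γ : Fin n → Fin (d + 1) =>
    ¬ (∑ i, (γ i : ℕ) ≤ d)) (fun γ hγ => h2 γ (Finset.mem_filter.1 hγ).2), add_zero,
    Finset.sum_subtype _ (p := fun γ : Fin n → Fin (d + 1) => ∑ i, (γ i : ℕ) ≤ d) (by simp)]
  refine Finset.sum_congr rfl fun γ _ => ?_
  unfold Bm
  rw [Matrix.of_apply, ← Finset.prod_mul_distrib]

/-- the Vandermonde determinant does not change under translations -/
theorem V_trans (n d : ℕ) (a : Fin n → ℂ) (x : Mon n d → Cn n) :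
    (Matrix.of fun β α : Mon n d => ∏ i, (x β i - a i) ^ (α.1 i : ℕ)).det = V n d x := by
  have h : (Matrix.of fun β α : Mon n d => ∏ i, (x β i - a i) ^ (α.1 i : ℕ)) =
      (Matrix.of fun β α : Mon n d => ∏ i, x β i ^ (α.1 i : ℕ)) * Bm n d a := by
    ext β α
    rw [Matrix.of_apply, Matrix.mul_apply, mon_trans]
    rfl
  rw [h, Matrix.det_mul, det_Bm, mul_one]
  rfl

/-- comparison with the rescaled monomials -/
theorem det_monE (n d : ℕ) (δ : ℝ) (z0 : Cn n) (x : Mon n d → Cn n) :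
    (Matrix.of fun β α : Idx n d => monE n d δ z0 (x (eMon n d β)) α).det =
      ((δ⁻¹ : ℝ) : ℂ) ^ L n d * V n d x := by
  have h1 : (Matrix.of fun β α : Idx n d => monE n d δ z0 (x (eMon n d β)) α) =
      Matrix.of fun β α : Idx n d => ((δ⁻¹ : ℝ) : ℂ) ^ (∑ i, ex n d α i) *
        ((Matrix.of fun β α : Mon n d => ∏ i, (x β i - z0 i) ^ (α.1 i : ℕ)).submatrix (eMon n d)
          (eMon n d)) β α := by
    ext β α
    rw [Matrix.of_apply, Matrix.of_apply, Matrix.submatrix_apply, Matrix.of_apply]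
    unfold monE mon
    rw [← Finset.prod_pow_eq_pow_sum, ← Finset.prod_mul_distrib]
    refine Finset.prod_congr rfl fun i _ => ?_
    rw [mul_pow, eMon_val]
  rw [h1, Matrix.det_mul_row, Matrix.det_submatrix_equiv_self, V_trans n d (fun i => z0 i) x,
    Finset.prod_pow_eq_pow_sum, L_idx]

end Pool.Agent.Y698.TF
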