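import Mathlib
import Pool.Agent.H805R2.Upper2

/-!
# Upper bound for Vandermonde determinants on sublevel sets of smooth plurisubharmonic functions
(variant of `Pool.Agent.H805R2.Upper2`)
-/

set_option autoImplicit false
set_option maxHeartbeats 1000000

open MeasureTheory Metric Set Filter Topology
open scoped ENNReal NNReal ContDiff ComplexOrder

namespace Pool.Agent.Y698.TF

open Pool.Agent.H805R2 Pool.Agent.H805R2.Fek Pool.Agent.H805R2.Gram

/-- **The main upper bound for sublevel sets of smooth plurisubharmonic functions** -/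
theorem upper_boundT (n : ℕ) : ∀ (U : Set (Cn n)), IsOpen U → Bornology.IsBounded U →
    ∀ (δ : ℝ), 0 < δ → ∀ (z0 : Cn n), (∀ z ∈ U, ∀ j, ‖z j - z0 j‖ ≤ δ) →
    ∀ (u : Cn n → ℝ), ContDiff ℝ 2 u → ∀ (V : ℝ), (∀ z, |u z| ≤ V) →
    ∀ C : Set (Cn n), IsCompact C → C ⊆ U → (∀ z ∈ C, (hess u z).PosSemidef) →
    ∀ t τ : ℝ, 0 ≤ t → 0 ≤ τ → (∀ z ∈ C, -t ≤ u z) → (∀ z ∈ U, z ∉ C → -τ ≤ u z) →
    ∀ K : Set (Cn n), ∀ q : ℝ, 0 < q → (∃ᶠ d : ℕ in atTop, ∃ x : Idx n d → Cn n, (∀ β, x β ∈ K) ∧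
      q ^ (SS n d) ≤ ‖(Matrix.of fun β α => monE n d δ z0 (x β) α).det‖ ^ 2) →
    ∀ ρ > 0, ∀ t' : ℝ, (∀ x ∈ K, closedBall x ρ ⊆ U ∧ ∀ y ∈ closedBall x ρ, u y ≤ -t') →
    Real.log q ≤
      2 * t * ((n.factorial : ℝ) * (2 / Real.pi) ^ n * ∫ z in C, (hess u z).det.re) -
        2 * (n + 1) * t' + 2 * (n + 1) * τ := by
  obtain ⟨c, hc, HF⟩ := feketeE n
  intro U hU hUb δ hδ z0 hUδ u hu V hV C hC hCU hpsh t τ ht hτ htC hτC K q hq hfreq ρ hρ t' hKρ
  have hpi := Real.pi_pos
  set Λ : ℝ := Real.log q with hΛ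
  set Vρ : ℝ := (volume : Measure (Cn n)).real (closedBall 0 ρ) with hVρ
  have hVρ0 : 0 < Vρ := by
    rw [hVρ, Measure.real]
    apply ENNReal.toReal_pos
    · exact (measure_closedBall_pos _ _ hρ).ne'
    · exact measure_closedBall_lt_top.ne
  -- a point of `K`
  obtain ⟨d0, x0, hx0, -⟩ := hfreq.exists
  have hne : Nonempty (Idx n d0) := by
    rw [← Fintype.card_pos_iff, card_Idx]
    exact NN_pos n d0
  obtain ⟨β0⟩ := hne
  -- the Gram matrices are positive definite
  have hpd : ∀ d : ℕ, ∀ σ : ℝ, 0 ≤ σ → (GG U δ z0 u d σ).PosDef := by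
    intro d σ hσ
    set B : Set (Cn n) := closedBall (x0 β0) (ρ / 2) with hB
    have hBfin : volume B ≠ ⊤ := measure_closedBall_lt_top.ne
    have hBpos : 0 < (volume B).toReal :=
      ENNReal.toReal_pos (measure_closedBall_pos _ _ (by positivity)).ne' hBfin
    obtain ⟨x, hxB, hdet⟩ := HF B measurableSet_closedBall (volume B).toReal hBpos
      (ENNReal.ofReal_toReal hBfin).symm δ hδ z0 d
    have hdet0 : (Matrix.of fun β α => monE n d δ z0 (x β) α).det ≠ 0 := by
      intro h
      rw [h, norm_zero] at hdet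
      have : 0 < (c * (volume B).toReal / δ ^ (2 * n)) ^ (SS n d) := by positivity
      norm_num at hdet
      linarith
    have hsub : ∀ β, closedBall (x β) (ρ / 2) ⊆ closedBall (x0 β0) ρ := by
      intro β
      apply closedBall_subset_closedBall'
      have := mem_closedBall.1 (hxB β)
      linarith
    exact (det_lower U δ z0 u V d hUb hU hδ hUδ hu hV σ hσ (ρ / 2) t' (by positivity) x
      (fun β => (hsub β).trans (hKρ _ (hx0 β0)).1)
      (fun β y hy => (hKρ _ (hx0 β0)).2 y (hsub β hy)) hdet0).1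
  -- consequences of the lower bound
  have hlow : ∀ d : ℕ, (∃ x : Idx n d → Cn n, (∀ β, x β ∈ K) ∧
      q ^ (SS n d) ≤ ‖(Matrix.of fun β α => monE n d δ z0 (x β) α).det‖ ^ 2) → ∀ σ : ℝ, 0 ≤ σ →
      2 * σ * t' * (NN n d : ℝ) + (NN n d : ℝ) * Real.log (Vρ / (NN n d : ℝ)) + SS n d * Λ ≤
        Real.log (GG U δ z0 u d σ).det.re := by
    rintro d ⟨x, hxK, hdet⟩ σ hσ
    have hdet0 : (Matrix.of fun β α => monE n d δ z0 (x β) α).det ≠ 0 := by
      intro h
      rw [h, norm_zero] at hdet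
      have : 0 < q ^ (SS n d) := by positivity
      norm_num at hdet
      linarith
    obtain ⟨h1, h2⟩ := det_lower U δ z0 u V d hUb hU hδ hUδ hu hV σ hσ ρ t' hρ x
      (fun β => (hKρ _ (hxK β)).1) (fun β => (hKρ _ (hxK β)).2) hdet0
    refine le_trans ?_ h2
    have h3 : SS n d * Λ ≤ Real.log (‖(Matrix.of fun β α => monE n d δ z0 (x β) α).det‖ ^ 2) := by
      rw [hΛ, ← Real.log_pow]
      exact Real.log_le_log (by positivity) hdet
    linarith
  set I0 : ℝ := (2 / Real.pi) ^ n * ∫ z in C, (hess u z).det.re with hI0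
  have hI00 : 0 ≤ I0 := by
    have h1 : 0 ≤ ∫ z in C, (hess u z).det.re := setIntegral_nonneg hC.measurableSet fun z hz =>
      (Complex.nonneg_iff.1 (hpsh z hz).det_nonneg).1
    positivity
  have hvC : 0 ≤ (volume : Measure (Cn n)).real C := measureReal_nonneg
  -- it suffices to prove the estimate with `κ`
  have hmain : ∀ κ > 0, Λ ≤ 2 * t * (n.factorial * (I0 + κ * (volume : Measure (Cn n)).real C)) -
      2 * (n + 1) * t' + 2 * (n + 1) * τ := by
    intro κ hκ
    obtain ⟨S0, hS0⟩ := total_growth U hU hUb δ hδ z0 hUδ u hu V hV hC hCU hpsh t τ ht hτ htC hτC κ hκ hpd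
    set I : ℝ := I0 + κ * (volume : Measure (Cn n)).real C with hI
    have hI0' : 0 ≤ I := by positivity
    -- inequality for each `d ≥ 1`
    have hd : ∀ d : ℕ, (∃ x : Idx n d → Cn n, (∀ β, x β ∈ K) ∧
        q ^ (SS n d) ≤ ‖(Matrix.of fun β α => monE n d δ z0 (x β) α).det‖ ^ 2) → 1 ≤ d → Λ ≤ (2 * t * (n.factorial * I) - 2 * (n + 1) * t' + 2 * (n + 1) * τ) +
        (((n : ℝ) + 1) * (S0 - Real.log Vρ) + 2 * t * (n.factorial * I)) * (1 / (d : ℝ)) +
        (n + 1) * n * (Real.log ((d : ℝ) + 1) / d) := by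
      intro d hxd hd1
      have hdp : (0 : ℝ) < d := by exact_mod_cast hd1
      have hN : (0 : ℝ) < NN n d := by exact_mod_cast NN_pos n d
      have h1 := hlow d hxd d (by positivity)
      have h2 := hS0 d
      have h3 : (((d : ℝ) + 1) ^ (n + 1) / (n + 1)) ≤ n.factorial * NN n d * ((d : ℝ) + 1) / (n + 1) := by
        rw [pow_succ]
        gcongr
        have := NN_lower n d
        exact_mod_cast this
      have h4 : 2 * t * I * (((d : ℝ) + 1) ^ (n + 1) / (n + 1)) ≤
          2 * t * I * (n.factorial * NN n d * ((d : ℝ) + 1) / (n + 1)) :=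
        mul_le_mul_of_nonneg_left h3 (by positivity)
      have h5 : (SS n d : ℝ) = d * NN n d / (n + 1) := by
        have := SS_mul n d
        have h' : (SS n d : ℝ) * (n + 1) = (d : ℝ) * (NN n d : ℝ) := by exact_mod_cast this
        field_simp
        linarith
      have h6 : Real.log (Vρ / (NN n d : ℝ)) = Real.log Vρ - Real.log (NN n d : ℝ) :=
        Real.log_div hVρ0.ne' hN.ne'
      have h7 : Real.log (NN n d : ℝ) ≤ n * Real.log ((d : ℝ) + 1) := by
        rw [← Real.log_pow]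
        apply Real.log_le_log hN
        exact_mod_cast NN_upper n d
      rw [h5, h6] at h1
      -- divide by `N`
      have h8 : (NN n d : ℝ) * (2 * d * t' + (Real.log Vρ - Real.log (NN n d : ℝ)) + d * Λ / (n + 1)) ≤
          NN n d * (S0 + 2 * τ * d + 2 * t * I * (n.factorial * ((d : ℝ) + 1) / (n + 1))) := by
        have e1 : (NN n d : ℝ) * (2 * d * t' + (Real.log Vρ - Real.log (NN n d : ℝ)) + d * Λ / (n + 1)) =
          2 * d * t' * (NN n d : ℝ) + (NN n d : ℝ) * (Real.log Vρ - Real.log (NN n d : ℝ)) +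
            d * NN n d / (n + 1) * Λ := by ring
        have e2 : (NN n d : ℝ) * (S0 + 2 * τ * d + 2 * t * I * (n.factorial * ((d : ℝ) + 1) / (n + 1))) =
          S0 * NN n d + 2 * τ * d * NN n d +
            2 * t * I * (n.factorial * NN n d * ((d : ℝ) + 1) / (n + 1)) := by ring
        rw [e1, e2]
        linarith
      have h9 := le_of_mul_le_mul_left h8 hN
      have h10 : d * Λ / (n + 1) ≤ S0 + 2 * τ * d + 2 * t * I * (n.factorial * ((d : ℝ) + 1) / (n + 1)) -
          2 * d * t' - Real.log Vρ + n * Real.log ((d : ℝ) + 1) := by linarith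
      have h11 : Λ = ((n + 1) / d) * (d * Λ / (n + 1)) := by field_simp
      rw [h11]
      calc ((n + 1) / d) * (d * Λ / (n + 1)) ≤ (((n : ℝ) + 1) / d) * (S0 + 2 * τ * d +
            2 * t * I * (n.factorial * ((d : ℝ) + 1) / (n + 1)) -
            2 * d * t' - Real.log Vρ + n * Real.log ((d : ℝ) + 1)) := by gcongr
        _ = _ := by
            field_simp
            ring
    -- pass to the limit
    have hlim : Tendsto (fun d : ℕ => (2 * t * (n.factorial * I) - 2 * (n + 1) * t' + 2 * (n + 1) * τ) +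
        (((n : ℝ) + 1) * (S0 - Real.log Vρ) + 2 * t * (n.factorial * I)) * (1 / (d : ℝ)) +
        (n + 1) * n * (Real.log ((d : ℝ) + 1) / d)) atTop
        (𝓝 ((2 * t * (n.factorial * I) - 2 * (n + 1) * t' + 2 * (n + 1) * τ) +
          (((n : ℝ) + 1) * (S0 - Real.log Vρ) + 2 * t * (n.factorial * I)) * 0 + (n + 1) * n * 0)) := by
      have hl1 : Tendsto (fun d : ℕ => 1 / (d : ℝ)) atTop (𝓝 0) := tendsto_one_div_atTop_nhds_zero_nat
      have hl2 : Tendsto (fun d : ℕ => Real.log ((d : ℝ) + 1) / d) atTop (𝓝 0) := by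
        have hf : Tendsto (fun x : ℝ => Real.log x / x) atTop (𝓝 0) := by
          have := Real.isLittleO_log_id_atTop.tendsto_div_nhds_zero
          simpa using this
        have h1 : Tendsto (fun d : ℕ => Real.log ((d : ℝ) + 1) / ((d : ℝ) + 1)) atTop (𝓝 0) :=
          hf.comp (tendsto_atTop_add_const_right _ 1 tendsto_natCast_atTop_atTop)
        have h2 : Tendsto (fun d : ℕ => 1 + 1 / (d : ℝ)) atTop (𝓝 (1 + 0)) := hl1.const_add 1
        have h3 := h1.mul h2
        rw [zero_mul] at h3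
        apply h3.congr'
        filter_upwards [eventually_ge_atTop 1] with d hd
        have : (0 : ℝ) < d := by exact_mod_cast hd
        field_simp
      exact (tendsto_const_nhds.add (hl1.const_mul _)).add (hl2.const_mul _)
    rw [mul_zero, mul_zero, add_zero, add_zero] at hlim
    exact ge_of_tendsto_of_frequently hlim
      ((hfreq.and_eventually (eventually_ge_atTop 1)).mono fun d h => hd d h.1 h.2)
  -- let `κ → 0`
  have hlim : Tendsto (fun κ : ℝ => 2 * t * (n.factorial * (I0 + κ * (volume : Measure (Cn n)).real C)) -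
      2 * (n + 1) * t' + 2 * (n + 1) * τ) (𝓝[>] 0)
      (𝓝 (2 * t * (n.factorial * (I0 + 0 * (volume : Measure (Cn n)).real C)) -
      2 * (n + 1) * t' + 2 * (n + 1) * τ)) := by
    apply Tendsto.mono_left _ nhdsWithin_le_nhds
    apply Continuous.tendsto (by fun_prop)
  have hfin := ge_of_tendsto hlim (by
    filter_upwards [self_mem_nhdsWithin] with κ hκ using hmain κ hκ)
  rw [zero_mul, add_zero, hI0] at hfin
  calc Λ ≤ _ := hfin
    _ = _ := by ring

end Pool.Agent.Y698.TF
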