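import Mathlib
import Pool.Agent.Y698.TF.Up
import Pool.Agent.H805R2.PartI

/-!
# Vandermonde determinants on sublevel sets of bounded functions
(variant of `Pool.Agent.H805R2.PartI`)
-/

set_option autoImplicit false
set_option maxHeartbeats 1000000

open MeasureTheory Metric Set Filter Topology
open scoped ContDiff ComplexOrder

namespace Pool.Agent.Y698.TF

open Pool.Agent.H805R2 Pool.Agent.H805R2.Fek

variable {n : ℕ}

/-- **Part I**: volume of sublevel sets of bounded functions -/
theorem partIT (n : ℕ) : ∀ Ω : Set (Cn n), IsOpen Ω → Bornology.IsBounded Ω →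
    ∀ (δ : ℝ), 0 < δ → ∀ (z0 : Cn n), (∀ z ∈ Ω, ∀ j, ‖z j - z0 j‖ ≤ δ) →
    ∀ (u : Cn n → ℝ) (ν : Measure (Cn n)), IsMongeAmpere Ω u ν →
    UpperSemicontinuousOn (fun z => ((u z : ℝ) : EReal)) Ω → (∀ z ∈ Ω, u z ≤ 0) →
    (∀ w ∈ frontier Ω, Tendsto u (𝓝[Ω] w) (𝓝 0)) →
    ∀ lam : ℝ, 0 < lam →
    (∀ χ : Cn n → ℝ, Continuous χ → HasCompactSupport χ → tsupport χ ⊆ Ω → (∀ z, χ z ∈ Icc (0 : ℝ) 1) →
      ∫ z, χ z ∂ν ≤ lam ^ n) →
    ∀ s : ℝ, 0 < s → ∀ K0 : Set (Cn n), IsCompact K0 → K0 ⊆ Ω → (∀ z ∈ K0, u z < -s) →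
    ∀ q : ℝ, 0 < q → (∃ᶠ d : ℕ in atTop, ∃ x : Idx n d → Cn n, (∀ β, x β ∈ K0) ∧
      q ^ (SS n d) ≤ ‖(Matrix.of fun β α => monE n d δ z0 (x β) α).det‖ ^ 2) →
    Real.log q ≤ -(2 * n * s / lam) := by
  have HU := upper_boundT n
  intro Ω hΩ hΩb δ hδ z0 hz0 u ν hMA husc hu0 hbd lam hlam hmass s hs K0 hK0 hK0Ω hK0s q hq hfreq
  have hpi := Real.pi_pos
  -- the estimate with parameters
  have key : ∀ η θ ε : ℝ, 0 < η → 0 < θ → 0 < ε → θ + η ≤ s →
      Real.log q ≤ 2 * (s / lam) * ((lam ^ n)⁻¹ * (lam ^ n + ε)) -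
        2 * (n + 1) * ((s - η) / lam) + 2 * (n + 1) * (θ / lam) := by
    intro η θ ε hη hθ hε hsum
    obtain ⟨C, hC, hCΩ, hCθ⟩ := bdry_compact hΩ hΩb hbd θ hθ
    -- the open sublevel set
    have hO : IsOpen {z | z ∈ Ω ∧ u z < -s} := by
      rw [isOpen_iff_mem_nhds]
      intro z hz
      have h1 := husc z hz.1 ((-s : ℝ) : EReal)
        (by change ((u z : ℝ) : EReal) < ((-s : ℝ) : EReal); exact_mod_cast hz.2)
      rw [hΩ.nhdsWithin_eq hz.1] at h1
      filter_upwards [h1, hΩ.mem_nhds hz.1] with y hy hyΩ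
      exact ⟨hyΩ, by exact_mod_cast hy⟩
    obtain ⟨ρ, hρ, hρsub⟩ := hK0.exists_cthickening_subset_open hO (fun z hz => ⟨hK0Ω hz, hK0s z hz⟩)
    have hK1 : IsCompact (cthickening ρ K0) := hK0.cthickening
    have hK1Ω : cthickening ρ K0 ⊆ Ω := fun z hz => (hρsub hz).1
    obtain ⟨U, v, hU, hKU, hUΩ, hvs, hvc, hvp, hvout, hvge, hvlt, hvanti, hvlim, hvconv⟩ :=
      extract hΩ hMA hu0 (hC.union hK1) (union_subset hCΩ hK1Ω)
    have hCU : C ⊆ U := subset_union_left.trans hKU
    have hK1U : cthickening ρ K0 ⊆ U := subset_union_right.trans hKU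
    obtain ⟨k1, hk1⟩ := dini_lt v u (fun _ => -s) hK1 (fun k => (hvs k).continuous.continuousOn)
      (fun z hz => hvanti z (hK1U hz)) (fun z hz => hvlim z (hK1U hz)) continuousOn_const
      (fun z hz => (hρsub hz).2)
    obtain ⟨χ0, hχs, hχc, hχU, hχ1, hχ01⟩ := cutoff hC hU hCU
    have hconv := hvconv χ0 hχs.continuous hχc hχU
    have hm0 := hmass χ0 hχs.continuous hχc (hχU.trans hUΩ) hχ01
    have hev : ∀ᶠ k in atTop, ∫ z, χ0 z * maDensity (v k) z < lam ^ n + ε :=
      hconv.eventually (gt_mem_nhds (by linarith))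
    obtain ⟨k, hk, hkm⟩ := ((eventually_ge_atTop k1).and hev).exists
    -- the truncated function
    set g : Cn n → ℝ := glue η (fun _ => -s) (v k) with hg
    have hgs : ContDiff ℝ ∞ g := glue_smooth η contDiff_const (hvs k)
    set ψ : Cn n → ℝ := fun z => g z + c0 * η with hψ
    have hψs : ContDiff ℝ ∞ ψ := hgs.add contDiff_const
    set w : Cn n → ℝ := fun z => lam⁻¹ * ψ z with hw
    have hws : ContDiff ℝ ∞ w := contDiff_const.mul hψs
    have hc0η : 0 ≤ c0 * η := mul_nonneg c0_nonneg hη.le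
    have hc0η' : c0 * η ≤ η := by nlinarith [c0_le_one]
    have hψoff : ∀ z, z ∉ C → ψ z = v k z := by
      intro z hz
      have hge : -s + η ≤ v k z := by
        by_cases hzΩ : z ∈ Ω
        · have h1 := hCθ z hzΩ hz
          have h2 := hvge k z hzΩ
          linarith
        · rw [hvout k z hzΩ]
          linarith
      have h3 : g z = v k z - c0 * η := glue_of_ge hη hge
      simp only [hψ, h3]
      ring
    have hψlo : ∀ z, -s ≤ ψ z := by
      intro z
      have := le_glue_left hη (fun _ => -s) (v k) z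
      simp only [hψ, hg]
      linarith
    have hψpsd : ∀ z ∈ U, (hess ψ z).PosSemidef := by
      intro z hz
      rw [hψ, hess_add_const _ hgs]
      apply glue_psd hη contDiff_const (hvs k) z _ (hvp k z hz)
      rw [hess_const_zero]
      exact Matrix.PosSemidef.zero
    have hwpsd : ∀ z ∈ U, (hess w z).PosSemidef := by
      intro z hz
      rw [hw, hess_const_mul _ hψs]
      exact (hψpsd z hz).smul (by exact_mod_cast (inv_pos.2 hlam).le)
    -- bounds
    obtain ⟨Vk, hVk⟩ := (hvc k).exists_bound_of_continuous (hvs k).continuous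
    have hwb : ∀ z, |w z| ≤ lam⁻¹ * (s + |Vk| + c0 * η) := by
      intro z
      simp only [hw]
      rw [abs_mul, abs_of_pos (inv_pos.2 hlam)]
      apply mul_le_mul_of_nonneg_left _ (inv_pos.2 hlam).le
      rw [abs_le]
      have h1 := hψlo z
      have h2 := glue_le hη (fun _ => -s) (v k) z
      have h3 := hVk z
      rw [Real.norm_eq_abs] at h3
      have h4 := le_abs_self Vk
      have h5 := le_abs_self (v k z)
      have h6 := abs_nonneg Vk
      have h7 : max (-s) (v k z) ≤ s + |Vk| := max_le (by linarith) (by linarith)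
      have h8 : ψ z = glue η (fun _ => -s) (v k) z + c0 * η := rfl
      constructor <;> linarith
    have happ := HU U hU (hΩb.subset hUΩ) δ hδ z0 (fun z hz => hz0 z (hUΩ hz)) w (hws.of_le ss_le) _ hwb
      C hC hCU (fun z hz => hwpsd z (hCU hz)) (s / lam) (θ / lam) (by positivity) (by positivity)
      (fun z _ => by
        simp only [hw]
        have := mul_le_mul_of_nonneg_left (hψlo z) (inv_pos.2 hlam).le
        calc -(s / lam) = lam⁻¹ * -s := by ring
          _ ≤ _ := this)
      (fun z hz hzC => by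
        have h1 : -θ ≤ ψ z := by
          rw [hψoff z hzC]
          have h2 := hCθ z (hUΩ hz) hzC
          have h3 := hvge k z (hUΩ hz)
          linarith
        simp only [hw]
        have := mul_le_mul_of_nonneg_left h1 (inv_pos.2 hlam).le
        calc -(θ / lam) = lam⁻¹ * -θ := by ring
          _ ≤ _ := this)
      K0 q hq hfreq ρ hρ ((s - η) / lam)
      (fun x hx => by
        have hsub : closedBall x ρ ⊆ cthickening ρ K0 := closedBall_subset_cthickening hx ρ
        refine ⟨hsub.trans hK1U, fun y hy => ?_⟩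
        have h1 := hk1 k hk y (hsub hy)
        have h2 : g y = -s := glue_of_le hη h1.le
        have h3 : ψ y ≤ -(s - η) := by
          simp only [hψ, h2]
          linarith
        simp only [hw]
        have := mul_le_mul_of_nonneg_left h3 (inv_pos.2 hlam).le
        calc lam⁻¹ * ψ y ≤ lam⁻¹ * -(s - η) := this
          _ = _ := by ring)
    -- the mass
    have hdetw : ∀ z, (hess w z).det.re = (lam ^ n)⁻¹ * (hess ψ z).det.re := by
      intro z
      rw [hw, hess_const_mul _ hψs, Matrix.det_smul, Fintype.card_fin, ← Complex.ofReal_pow,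
        Complex.re_ofReal_mul, inv_pow]
    have hmassC : (n.factorial : ℝ) * (2 / Real.pi) ^ n * ∫ z in C, (hess w z).det.re ≤
        (lam ^ n)⁻¹ * (lam ^ n + ε) := by
      simp_rw [hdetw]
      rw [integral_const_mul, stokes_on (v k) ψ (hvs k) hψs C hC hψoff]
      have h1 : (n.factorial : ℝ) * (2 / Real.pi) ^ n * ∫ z in C, (hess (v k) z).det.re =
          ∫ z in C, 1 * maDensity (v k) z := by
        rw [← integral_const_mul]
        simp only [one_mul]
        rfl
      have h2 := setInt_le_cut (hvs k) hχs.continuous hχc hC hχU (hvp k) (fun z => (hχ01 z).1)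
        (fun _ => 1) (fun z hz => (hχ1 z hz).ge) continuous_const hCU
      calc (n.factorial : ℝ) * (2 / Real.pi) ^ n * ((lam ^ n)⁻¹ * ∫ z in C, (hess (v k) z).det.re)
          = (lam ^ n)⁻¹ * ((n.factorial : ℝ) * (2 / Real.pi) ^ n * ∫ z in C, (hess (v k) z).det.re) := by ring
        _ ≤ (lam ^ n)⁻¹ * (lam ^ n + ε) := by
            apply mul_le_mul_of_nonneg_left _ (by positivity)
            rw [h1]
            exact h2.trans hkm.le
    refine happ.trans ?_
    have := mul_le_mul_of_nonneg_left hmassC (by positivity : 0 ≤ 2 * (s / lam))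
    linarith
  -- limit
  have hlim : Tendsto (fun e : ℝ => 2 * (s / lam) * ((lam ^ n)⁻¹ * (lam ^ n + e)) -
        2 * (n + 1) * ((s - e) / lam) + 2 * (n + 1) * (e / lam)) (𝓝[>] 0)
      (𝓝 (2 * (s / lam) * ((lam ^ n)⁻¹ * (lam ^ n + 0)) -
        2 * (n + 1) * ((s - 0) / lam) + 2 * (n + 1) * (0 / lam))) := by
    apply Tendsto.mono_left _ nhdsWithin_le_nhds
    apply Continuous.tendsto (by fun_prop)
  have hfin := ge_of_tendsto hlim (by
    have h1 : ∀ᶠ e : ℝ in 𝓝[>] 0, e < s / 2 :=
      nhdsWithin_le_nhds (gt_mem_nhds (by positivity))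
    filter_upwards [self_mem_nhdsWithin, h1] with e he he2
    have he' : 0 < e := he
    exact key e e e he' he' he' (by linarith))
  refine hfin.trans (le_of_eq ?_)
  have : lam ^ n ≠ 0 := (pow_pos hlam n).ne'
  field_simp
  ring

end Pool.Agent.Y698.TF
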