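import Mathlib
import Pool.Agent.Y698.TF.Mn
import Pool.Agent.Y698.TF.Pi
import Pool.Agent.H805R2.Final

/-!
# The transfinite diameter of sublevel sets of functions in the Cegrell class
-/

set_option autoImplicit false
set_option maxHeartbeats 1000000

open MeasureTheory Metric Set Filter Topology
open scoped ContDiff ComplexOrder

namespace Pool.Agent.Y698.TF

open Pool.Agent.H805R2 Pool.Agent.H805R2.Fek

variable {n : ℕ}

/-- the volume of the sublevel sets in terms of the radius of a polydisc -/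
theorem vol_bound (n : ℕ) : ∃ c : ℝ, 0 < c ∧
    ∀ Ω : Set (Cn n), IsOpen Ω → IsConnected Ω → Bornology.IsBounded Ω →
    ∀ (δ : ℝ), 0 < δ → ∀ (z0 : Cn n), (∀ z ∈ Ω, ∀ j, ‖z j - z0 j‖ ≤ δ) →
    ∀ (φ : Cn n → EReal) (μ : Measure (Cn n)), IsCegrellF Ω φ μ →
    ∀ lam : ℝ, 0 < lam → μ Ω = ENNReal.ofReal (lam ^ n) → ∀ s : ℝ, 0 < s →
    volume {z | z ∈ Ω ∧ φ z < ((-s : ℝ) : EReal)} ≤
      ENNReal.ofReal (c * δ ^ (2 * n) * Real.exp (-(2 * n * s / lam))) := by
  obtain ⟨c, hc, H⟩ := partI n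
  refine ⟨c⁻¹, inv_pos.2 hc, ?_⟩
  intro Ω hΩ hconn hΩb δ hδ0 z0 hcoord φ μ hF lam hlam hμ s hs
  obtain ⟨hφ, hμfin, u, ν, hE, hanti, hlim, ⟨M, hM⟩, hconv⟩ := hF
  -- bound for each `u j`
  have hj : ∀ j, volume {z | z ∈ Ω ∧ u j z < -s} ≤
      ENNReal.ofReal (c⁻¹ * δ ^ (2 * n) * Real.exp (-(2 * n * s / lam))) := by
    intro j
    rcases strong_max hΩ hconn.isPreconnected (hE j).1 (hE j).2.2.1 with h0 | hneg
    · have : {z | z ∈ Ω ∧ u j z < -s} = ∅ := by
        rw [eq_empty_iff_forall_notMem]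
        rintro z ⟨hz, hz'⟩
        rw [h0 z hz] at hz'
        linarith
      rw [this, measure_empty]
      exact zero_le
    · have hO : IsOpen {z | z ∈ Ω ∧ u j z < -s} := by
        rw [isOpen_iff_mem_nhds]
        intro z hz
        have h1 := (hE j).1.1 z hz.1 ((-s : ℝ) : EReal)
          (by change ((u j z : ℝ) : EReal) < ((-s : ℝ) : EReal); exact_mod_cast hz.2)
        rw [hΩ.nhdsWithin_eq hz.1] at h1
        filter_upwards [h1, hΩ.mem_nhds hz.1] with y hy hyΩ
        exact ⟨hyΩ, by exact_mod_cast hy⟩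
      rw [hO.measure_eq_iSup_isCompact]
      apply iSup_le; intro K0
      apply iSup_le; intro hK0sub
      apply iSup_le; intro hK0
      rcases eq_or_ne (volume K0) 0 with hv | hv
      · rw [hv]; exact zero_le
      · have hfin : volume K0 ≠ ⊤ := hK0.measure_lt_top.ne
        set v0 := (volume K0).toReal with hv0
        have hv0pos : 0 < v0 := ENNReal.toReal_pos hv hfin
        have hvol : volume K0 = ENNReal.ofReal v0 := (ENNReal.ofReal_toReal hfin).symm
        have h1 := H Ω hΩ hΩb δ hδ0 z0 hcoord (u j) (ν j) (hE j).2.2.2.2.1 (hE j).1.1 (hE j).2.2.1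
          (hE j).2.2.2.1 lam hlam (by
            intro χ hχc hχcs hχΩ hχ01
            have h2 := mass_bound hΩ hΩb hE hanti M hM hμfin hconv j hneg χ hχc hχcs hχΩ hχ01
            rw [hμ, ENNReal.toReal_ofReal (by positivity)] at h2
            exact h2) s hs K0 hK0 (fun z hz => (hK0sub hz).1) (fun z hz => (hK0sub hz).2) v0 hv0pos hvol
        rw [hvol]
        apply ENNReal.ofReal_le_ofReal
        have h2 : c * v0 / δ ^ (2 * n) ≤ Real.exp (-(2 * n * s / lam)) :=
          (Real.log_le_iff_le_exp (by positivity)).1 h1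
        rw [div_le_iff₀ (by positivity)] at h2
        calc v0 = c⁻¹ * (c * v0) := by field_simp
          _ ≤ c⁻¹ * (Real.exp (-(2 * n * s / lam)) * δ ^ (2 * n)) := by gcongr
          _ = _ := by ring
  -- pass to `φ`
  have hsub : {z | z ∈ Ω ∧ φ z < ((-s : ℝ) : EReal)} ⊆ ⋃ j, {z | z ∈ Ω ∧ u j z < -s} := by
    rintro z ⟨hz, hz'⟩
    obtain ⟨j, hj'⟩ := ((hlim z hz).eventually (gt_mem_nhds hz')).exists
    exact mem_iUnion.2 ⟨j, hz, by exact_mod_cast hj'⟩
  refine (measure_mono hsub).trans ?_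
  have hmono : Monotone fun j => {z | z ∈ Ω ∧ u j z < -s} := by
    rintro i j hij z ⟨hz, hz'⟩
    exact ⟨hz, lt_of_le_of_lt (hanti z hz hij) hz'⟩
  rw [hmono.measure_iUnion]
  exact iSup_le hj



/-- the transfinite diameter of the sublevel sets -/
theorem trans_bound (n : ℕ) :
    ∀ Ω : Set (Cn n), IsOpen Ω → IsConnected Ω → Bornology.IsBounded Ω →
    ∀ (R : ℝ), 0 < R → ∀ (z0 : Cn n), (∀ z ∈ Ω, ∀ j, ‖z j - z0 j‖ ≤ R) →
    ∀ (φ : Cn n → EReal) (μ : Measure (Cn n)), IsCegrellF Ω φ μ →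
    ∀ lam : ℝ, 0 < lam → μ Ω = ENNReal.ofReal (lam ^ n) → ∀ s : ℝ, 0 < s →
    ∀ K : Set (Cn n), IsCompact K → K ⊆ {z | z ∈ Ω ∧ φ z < ((-s : ℝ) : EReal)} →
    ∀ q : ℝ, R * Real.exp (-(s / lam)) < q →
    ∀ᶠ d : ℕ in atTop, ∀ x : Mon n d → Cn n, (∀ β, x β ∈ K) → ‖V n d x‖ ≤ q ^ L n d := by
  intro Ω hΩ hconn hΩb R hR z0 hz0 φ μ hF lam hlam hμ s hs K hK hKs q hq
  obtain ⟨hφ, hμfin, u, ν, hE, hanti, hlim, ⟨M, hM⟩, hconv⟩ := hF
  by_contra hcon
  rw [not_eventually] at hcon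
  have hq0 : 0 < q := lt_trans (by positivity) hq
  set Q : ℝ := (q / R) ^ (2 * n) with hQ
  have hQ0 : 0 < Q := by positivity
  -- the determinants of the rescaled monomials
  have hfreq : ∃ᶠ d : ℕ in atTop, ∃ x : Idx n d → Cn n, (∀ β, x β ∈ K) ∧
      Q ^ (SS n d) ≤ ‖(Matrix.of fun β α => monE n d R z0 (x β) α).det‖ ^ 2 := by
    refine hcon.mono fun d hd => ?_
    push Not at hd
    obtain ⟨x, hx, hV⟩ := hd
    refine ⟨fun β => x (eMon n d β), fun β => hx _, ?_⟩
    rw [det_monE, norm_mul, norm_pow, Complex.norm_real, Real.norm_eq_abs, abs_of_pos (inv_pos.2 hR),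
      mul_pow]
    have e1 : Q ^ SS n d = ((R⁻¹) ^ L n d) ^ 2 * (q ^ L n d) ^ 2 := by
      rw [hQ, L_eq, ← pow_mul, ← mul_pow, ← mul_pow, ← pow_mul]
      congr 1
      · field_simp
      · ring
    rw [e1]
    gcongr
  have hKne : K.Nonempty := by
    obtain ⟨d, x, hx, -⟩ := hfreq.exists
    have hne : Nonempty (Idx n d) := by
      rw [← Fintype.card_pos_iff, card_Idx]
      exact NN_pos n d
    exact ⟨x hne.some, hx _⟩
  -- `K` lies in a sublevel set of some `u j`
  have hO : ∀ j, IsOpen {z | z ∈ Ω ∧ u j z < -s} := by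
    intro j
    rw [isOpen_iff_mem_nhds]
    intro z hz
    have h1 := (hE j).1.1 z hz.1 ((-s : ℝ) : EReal)
      (by change ((u j z : ℝ) : EReal) < ((-s : ℝ) : EReal); exact_mod_cast hz.2)
    rw [hΩ.nhdsWithin_eq hz.1] at h1
    filter_upwards [h1, hΩ.mem_nhds hz.1] with y hy hyΩ
    exact ⟨hyΩ, by exact_mod_cast hy⟩
  have hsub : K ⊆ ⋃ j, {z | z ∈ Ω ∧ u j z < -s} := by
    intro z hz
    obtain ⟨hzΩ, hz'⟩ := hKs hz
    obtain ⟨j, hj'⟩ := ((hlim z hzΩ).eventually (gt_mem_nhds hz')).exists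
    exact mem_iUnion.2 ⟨j, hzΩ, by exact_mod_cast hj'⟩
  have hmono : Monotone fun j => {z | z ∈ Ω ∧ u j z < -s} := by
    rintro i j hij z ⟨hz, hz'⟩
    exact ⟨hz, lt_of_le_of_lt (hanti z hz hij) hz'⟩
  obtain ⟨j, hj⟩ := hK.elim_directed_cover _ hO hsub (directed_of_isDirected_le hmono)
  rcases strong_max hΩ hconn.isPreconnected (hE j).1 (hE j).2.2.1 with h0 | hneg
  · obtain ⟨z, hz⟩ := hKne
    have h1 := hj hz
    have h2 : u j z < -s := h1.2
    rw [h0 z h1.1] at h2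
    linarith
  · have h1 := partIT n Ω hΩ hΩb R hR z0 hz0 (u j) (ν j) (hE j).2.2.2.2.1 (hE j).1.1 (hE j).2.2.1
      (hE j).2.2.2.1 lam hlam (by
        intro χ hχc hχcs hχΩ hχ01
        have h2 := mass_bound hΩ hΩb hE hanti M hM hμfin hconv j hneg χ hχc hχcs hχΩ hχ01
        rw [hμ, ENNReal.toReal_ofReal (by positivity)] at h2
        exact h2) s hs K hK (fun z hz => (hj hz).1) (fun z hz => (hj hz).2) Q hQ0 hfreq
    have h2 : Real.exp (-(s / lam)) < q / R := by
      rw [lt_div_iff₀ hR]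
      linarith
    have h3 : Real.log Q = 2 * n * Real.log (q / R) := by
      rw [hQ, Real.log_pow]
      push_cast
      ring
    have h4 : -(s / lam) < Real.log (q / R) := (Real.lt_log_iff_exp_lt (by positivity)).2 h2
    rcases Nat.eq_zero_or_pos n with hn | hn
    · -- `n = 0`: all determinants are one
      subst hn
      obtain ⟨d, hd⟩ := hcon.exists
      push Not at hd
      obtain ⟨x, -, hV⟩ := hd
      rw [L_eq, zero_mul, pow_zero] at hV
      have h5 : V 0 d x = 1 := by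
        unfold V
        have : (Matrix.of fun β α : Mon 0 d => ∏ i, x β i ^ (α.1 i : ℕ)) = 1 := by
          ext β α
          have hsub : Subsingleton (Mon 0 d) := ⟨fun a b => Subtype.ext (funext fun i => i.elim0)⟩
          rw [Subsingleton.elim β α, Matrix.one_apply_eq]
          simp
        rw [this, Matrix.det_one]
      rw [h5] at hV
      simp at hV
    · rw [h3] at h1
      have h5 : (0 : ℝ) < 2 * n := by positivity
      have h6 := mul_lt_mul_of_pos_left h4 h5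
      have e : 2 * (n : ℝ) * -(s / lam) = -(2 * n * s / lam) := by ring
      rw [e] at h6
      linarith

end Pool.Agent.Y698.TF
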