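import Mathlib
import Pool.Agent.Y698.TF.Mn

/-!
# The volume in terms of the transfinite diameter
-/

set_option autoImplicit false

open MeasureTheory Metric Set Filter Topology

namespace Pool.Agent.Y698.TF

open Pool.Agent.H805R2 Pool.Agent.H805R2.Fek

theorem vol_le_trans (n : ℕ) : ∃ c : ℝ, 0 < c ∧ ∀ K : Set (Cn n), MeasurableSet K →
    volume K ≠ ⊤ → ∀ r : ℝ, 0 ≤ r →
    (∀ q : ℝ, r < q → ∀ᶠ d : ℕ in atTop, ∀ x : Mon n d → Cn n, (∀ β, x β ∈ K) →
      ‖V n d x‖ ≤ q ^ L n d) → volume K ≤ ENNReal.ofReal (c * r ^ (2 * n)) := by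
  obtain ⟨c, hc, HF⟩ := feketeE n
  refine ⟨c⁻¹, inv_pos.2 hc, ?_⟩
  intro K hK hfin r hr hT
  rcases eq_or_ne (volume K) 0 with h0 | h0
  · rw [h0]
    exact zero_le
  set v := (volume K).toReal with hv
  have hv0 : 0 < v := ENNReal.toReal_pos h0 hfin
  have hvol : volume K = ENNReal.ofReal v := (ENNReal.ofReal_toReal hfin).symm
  have key : ∀ q : ℝ, r < q → c * v ≤ q ^ (2 * n) := by
    intro q hq
    have hq0 : 0 < q := lt_of_le_of_lt hr hq
    obtain ⟨d, hd, hd1⟩ := ((hT q hq).and (eventually_ge_atTop 1)).exists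
    obtain ⟨y, hy, hdet⟩ := HF K hK v hv0 hvol 1 one_pos 0 d
    have h1 := hd (fun β => y ((eMon n d).symm β)) (fun β => hy _)
    have h2 := det_monE n d 1 0 (fun β => y ((eMon n d).symm β))
    simp only [Equiv.symm_apply_apply] at h2
    rw [h2, inv_one, Complex.ofReal_one, one_pow, one_pow, one_mul, div_one] at hdet
    have hSS : SS n d ≠ 0 := by
      unfold SS
      exact (Nat.choose_pos (by omega)).ne'
    have h3 : (c * v) ^ SS n d ≤ (q ^ (2 * n)) ^ SS n d := by
      refine hdet.trans ?_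
      calc ‖V n d fun β => y ((eMon n d).symm β)‖ ^ 2 ≤ (q ^ L n d) ^ 2 := by gcongr
        _ = (q ^ (2 * n)) ^ SS n d := by
          rw [L_eq, ← pow_mul, ← pow_mul]
          congr 1
          ring
    exact (pow_le_pow_iff_left₀ (by positivity) (by positivity) hSS).1 h3
  have hlim : Tendsto (fun q : ℝ => q ^ (2 * n)) (𝓝[>] r) (𝓝 (r ^ (2 * n))) :=
    ((continuous_pow (2 * n)).tendsto r).mono_left nhdsWithin_le_nhds
  have h4 : c * v ≤ r ^ (2 * n) := ge_of_tendsto hlim (by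
    filter_upwards [self_mem_nhdsWithin] with q hq using key q hq)
  rw [hvol]
  apply ENNReal.ofReal_le_ofReal
  calc v = c⁻¹ * (c * v) := by field_simp
    _ ≤ c⁻¹ * r ^ (2 * n) := by gcongr

end Pool.Agent.Y698.TF
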